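import Mathlib
import Pool.Agent.N70.AW.Stm2
import Pool.Agent.H585R2.DiffC

/-! The derivation `d/dt` of a finite Galois extension of `K(t)` (project of helper70). -/

set_option autoImplicit false

namespace Pool.Agent.N483.AW

open Polynomial Pool.Agent.N70.AW Pool.Agent.H585R2.DiffC

/-- A differential ring from an additive map with the product rule. -/
@[reducible] noncomputable def mkDiff {A : Type*} [CommRing A] (d : A →+ A)
    (h : ∀ a b, d (a * b) = a * d b + b * d a) : Differential A :=
  ⟨Derivation.mk' d.toIntLinearMap (fun a b => h a b)⟩

/-- The coefficients of the minimal polynomial of a constant are constants. -/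
theorem minpoly_const {F Z : Type*} [Field F] [Field Z] [Algebra F Z] [Differential F]
    [Differential Z] [DifferentialAlgebra F Z] (z : Z) (hint : IsIntegral F z)
    (hz : Differential.deriv z = 0) (i : ℕ) :
    Differential.deriv ((minpoly F z).coeff i) = 0 := by
  set μ := minpoly F z with hμ
  have hmon : μ.Monic := minpoly.monic hint
  have h1 := Differential.deriv_aeval_eq (A := F) z μ
  rw [minpoly.aeval, hz, mul_zero, add_zero, map_zero] at h1
  have h2 : Differential.mapCoeffs μ = 0 := by
    by_contra hne
    have h3 := minpoly.degree_le_of_ne_zero F z hne h1.symm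
    have h4 : (Differential.mapCoeffs μ).degree < μ.degree := by
      rw [Polynomial.degree_eq_natDegree hmon.ne_zero]
      rw [Polynomial.degree_lt_iff_coeff_zero]
      intro m hm
      rw [Differential.coeff_mapCoeffs]
      rcases eq_or_lt_of_le hm with h5 | h5
      · rw [← h5, hmon.coeff_natDegree]
        exact Derivation.map_one_eq_zero _
      · rw [Polynomial.coeff_eq_zero_of_natDegree_lt h5, map_zero]
    exact absurd h4 (not_lt.2 h3)
  rw [← Differential.coeff_mapCoeffs, h2, Polynomial.coeff_zero]

theorem der_all : St_der := by
  intro K Z _ _ _ _ _ _ _ _ hconst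
  let dR : Differential (RatFunc K) :=
    mkDiff (ddt (k := K)).toLinearMap.toAddMonoidHom
      (fun a b => Derivation.leibniz (ddt (k := K)) a b)
  let dZ : Differential Z := Differential.differentialFiniteDimensional (RatFunc K) Z
  have dA : DifferentialAlgebra (RatFunc K) Z :=
    Differential.differentialAlgebraFiniteDimensional
  have hR : ∀ f : RatFunc K, Differential.deriv f = ddt (k := K) f := fun f => rfl
  have hZ : ∀ f : RatFunc K, Differential.deriv (algebraMap (RatFunc K) Z f) =
      algebraMap (RatFunc K) Z (ddt (k := K) f) := fun f => by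
    rw [DifferentialAlgebra.deriv_algebraMap, hR]
  have hK : ∀ c : K, Differential.deriv (algebraMap K Z c) = 0 := fun c => by
    rw [IsScalarTower.algebraMap_apply K (RatFunc K) Z, hZ, Derivation.map_algebraMap, map_zero]
  let D : Derivation K Z Z :=
    { toFun := fun z => Differential.deriv z
      map_add' := fun a b => map_add _ a b
      map_smul' := fun c z => by
        rw [Algebra.smul_def, Derivation.leibniz, hK, smul_zero, add_zero, smul_eq_mul,
          RingHom.id_apply, Algebra.smul_def]
      map_one_eq_zero' := by
        change Differential.deriv (1 : Z) = 0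
        exact Derivation.map_one_eq_zero _
      leibniz' := fun a b => by
        change Differential.deriv (a * b) = a • Differential.deriv b + b • Differential.deriv a
        exact Derivation.leibniz _ a b }
  have hD : ∀ z : Z, D z = Differential.deriv z := fun z => rfl
  refine ⟨D, ⟨?_, ?_, ?_⟩⟩
  · intro p
    rw [hD, pz, hZ, D_poly ddt ddt_X, pz]
  · intro γ z
    rw [hD, hD]
    exact (Differential.algEquiv_deriv' γ z).symm
  · intro z hz
    rw [hD] at hz
    apply hconst
    have hint : IsIntegral (RatFunc K) z := Algebra.IsIntegral.isIntegral z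
    have h5 : ∀ i, ∃ c : K, (minpoly (RatFunc K) z).coeff i = algebraMap K _ c := fun i =>
      const_of_D_eq_zero ddt ddt_X _ (by
        rw [← hR]; exact minpoly_const z hint hz i)
    have h7 : minpoly (RatFunc K) z ∈ Polynomial.lifts (algebraMap K (RatFunc K)) := by
      rw [Polynomial.lifts_iff_coeff_lifts]
      intro i
      obtain ⟨c, hc⟩ := h5 i
      exact ⟨c, hc.symm⟩
    obtain ⟨q, hq⟩ := (Polynomial.mem_lifts _).1 h7
    refine ⟨q, ?_, ?_⟩
    · rintro rfl
      rw [Polynomial.map_zero] at hq
      exact (minpoly.monic hint).ne_zero hq.symm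
    · rw [← Polynomial.aeval_map_algebraMap (RatFunc K), hq, minpoly.aeval]

end Pool.Agent.N483.AW
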